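import Mathlib
import Pool.Agent.TH360.BqMain

set_option autoImplicit false

namespace Pool.Agent.Results.MP_66cee2_co.LinearRange

/-- `f` preserves unit distances. -/
def PreservesUnit {d n : ℕ} (f : EuclideanSpace ℝ (Fin d) → EuclideanSpace ℝ (Fin n)) : Prop :=
  ∀ x y, dist x y = 1 → dist (f x) (f y) = 1

/-- `f` preserves all distances. -/
def PreservesAll {d n : ℕ} (f : EuclideanSpace ℝ (Fin d) → EuclideanSpace ℝ (Fin n)) : Prop :=
  ∀ x y, dist (f x) (f y) = dist x y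

/-- The set `N_d` of the problem file. -/
def N (d : ℕ) : Set ℕ :=
  {n | d ≤ n ∧ ∀ f : EuclideanSpace ℝ (Fin d) → EuclideanSpace ℝ (Fin n),
    PreservesUnit f → PreservesAll f}

/-- If `d ≤ n` and `3 n + 9 ≤ 4 d` then `n ∈ N_d`; thus `k_d ≥ ⌊4 d / 3⌋ - 3` for `d ≥ 9`, and
`k_d - d` tends to infinity. -/
theorem result (d n : ℕ) (hdn : d ≤ n) (hn : 3 * n + 9 ≤ 4 * d) : n ∈ N d := by
  refine ⟨hdn, fun f hf x y => ?_⟩
  rw [dist_eq_norm, dist_eq_norm]
  refine TH360.BqG.isometry_of_unit' (n - d) ?_ ?_ (f := f) ?_ x y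
  · rw [finrank_euclideanSpace_fin]; omega
  · rw [finrank_euclideanSpace_fin, finrank_euclideanSpace_fin]; omega
  · intro a b hab
    rw [← dist_eq_norm] at hab ⊢
    exact hf a b hab

end Pool.Agent.Results.MP_66cee2_co.LinearRange
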